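import Pool.Agent.Helper38.SD.GoalsD

/-!
Project SD (MP_fc6b1e_nt), packet M_TRD (helper12): transversals through two elements, with a defect.
Adapted from `Pool/Agent/Helper77/SD/MTR.lean`.
-/

set_option autoImplicit false

open Module

namespace Pool.Agent.Helper12.SD

open Pool.Agent.Helper38.SD

section

variable {k V I : Type} [Field k] [AddCommGroup V] [Module k V] [FiniteDimensional k V]

/-- the rank of a set of indices -/
noncomputable def rk (k : Type) {V I : Type} [Field k] [AddCommGroup V] [Module k V] (l : I → V)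
    (T : Finset I) : ℕ := finrank k (Submodule.span k (l '' (T : Set I)))

theorem rk_sub [DecidableEq I] (l : I → V) (A B : Finset I) :
    rk k l (A ∪ B) + rk k l (A ∩ B) ≤ rk k l A + rk k l B := by
  have h1 : Submodule.span k (l '' ((A ∪ B : Finset I) : Set I)) =
      Submodule.span k (l '' (A : Set I)) ⊔ Submodule.span k (l '' (B : Set I)) := by
    rw [Finset.coe_union, Set.image_union, Submodule.span_union]
  have h2 : Submodule.span k (l '' ((A ∩ B : Finset I) : Set I)) ≤
      Submodule.span k (l '' (A : Set I)) ⊓ Submodule.span k (l '' (B : Set I)) := by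
    refine le_inf (Submodule.span_mono (Set.image_mono ?_)) (Submodule.span_mono (Set.image_mono ?_))
    · exact Finset.coe_subset.mpr Finset.inter_subset_left
    · exact Finset.coe_subset.mpr Finset.inter_subset_right
  have h3 := Submodule.finrank_mono h2
  have h4 := Submodule.finrank_sup_add_finrank_inf_eq (Submodule.span k (l '' (A : Set I)))
    (Submodule.span k (l '' (B : Set I)))
  rw [rk, rk, rk, rk, h1]
  omega

/-- two exceptional sets are equal or conjugate -/
theorem two_bad [Fintype I] [DecidableEq I] {c : I → I} {l : I → V} (hc : ∀ i, c (c i) = i)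
    (hI : Fintype.card I = 4) (h1 : ∀ T : Finset I, T.card * 2 ≤ (2 + T.card) * rk k l T)
    {B B' : Finset I} (hB : B.card = 2) (hBc : ∀ i ∈ B, c i ∉ B) (hBr : rk k l B ≤ 1)
    (hB' : B'.card = 2) (hBr' : rk k l B' ≤ 1) : B' = B ∨ B' = B.image c := by
  have s1 := rk_sub (k := k) l B B'
  have s2 := Finset.card_union_add_card_inter B B'
  have s3 : (B ∩ B').card ≤ 2 := by
    rw [← hB]
    exact Finset.card_le_card Finset.inter_subset_left
  have s4 : Bᶜ.card = 2 := by rw [Finset.card_compl, hI, hB]
  obtain h0 | h0 | h0 : (B ∩ B').card = 0 ∨ (B ∩ B').card = 1 ∨ (B ∩ B').card = 2 := by omega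
  · right
    have t1 : B' ⊆ Bᶜ := by
      intro i hi
      rw [Finset.mem_compl]
      intro hi'
      have t2 : i ∈ B ∩ B' := Finset.mem_inter.mpr ⟨hi', hi⟩
      rw [Finset.card_eq_zero.mp h0] at t2
      exact absurd t2 (Finset.notMem_empty i)
    have t3 : B.image c ⊆ Bᶜ := by
      intro i hi
      obtain ⟨j, hj, rfl⟩ := Finset.mem_image.mp hi
      rw [Finset.mem_compl]
      exact hBc j hj
    have t4 : (B.image c).card = 2 := by
      rw [Finset.card_image_of_injective B (fun a b hab => by rw [← hc a, hab, hc]), hB]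
    rw [Finset.eq_of_subset_of_card_le t1 (by omega), Finset.eq_of_subset_of_card_le t3 (by omega)]
  · exfalso
    have t1 := h1 (B ∩ B')
    have t2 := h1 (B ∪ B')
    have t3 : (B ∪ B').card = 3 := by omega
    rw [h0] at t1
    rw [t3] at t2
    omega
  · left
    have t1 : B ∩ B' = B := Finset.eq_of_subset_of_card_le Finset.inter_subset_left (by omega)
    have t2 : B ∩ B' = B' := Finset.eq_of_subset_of_card_le Finset.inter_subset_right (by omega)
    rw [← t2, t1]

end

theorem exists_P0 {k V I : Type} [Field k] [AddCommGroup V] [Module k V] [FiniteDimensional k V]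
    [Fintype I] [DecidableEq I] {c : I → I} {l : I → V} {d : ℕ} (hc : ∀ i, c (c i) = i)
    (hI : Fintype.card I = 2 * d)
    (h1 : ∀ T : Finset I, T.card * d ≤ (d + T.card) * rk k l T) :
    ∃ P₀ : Set I, (d ≠ 2 → P₀ = ∅) ∧ (d = 2 → ∀ T : Finset I, T.card = 2 → (∀ i ∈ T, c i ∉ T) →
      rk k l T ≤ 1 → (T : Set I) = P₀ ∨ (T : Set I) = c '' P₀) := by
  classical
  by_cases hd : d = 2
  · subst hd
    by_cases h : ∃ B : Finset I, B.card = 2 ∧ (∀ i ∈ B, c i ∉ B) ∧ rk k l B ≤ 1
    · obtain ⟨B, hB, hBc, hBr⟩ := h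
      refine ⟨(B : Set I), fun h => absurd rfl h, fun _ T hT _ hTr => ?_⟩
      rcases two_bad hc (by omega) h1 hB hBc hBr hT hTr with h3 | h3
      · left
        rw [h3]
      · right
        rw [h3, Finset.coe_image]
    · refine ⟨∅, fun _ => rfl, fun _ T hT hTc hTr => ?_⟩
      exact absurd ⟨T, hT, hTc, hTr⟩ h
  · exact ⟨∅, fun _ => rfl, fun h => absurd h hd⟩

/-- the numerical part -/
theorem num (d n q r : ℕ) (hq : q ≤ 2) (hqn : q ≤ n) (hnd : n ≤ d)
    (h1 : (2 * n - q) * d ≤ (d + (2 * n - q)) * r) (h : ¬ n ≤ r + d / 3) :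
    d = 2 ∧ q = 2 ∧ n = 2 ∧ r ≤ 1 := by
  have h2 : 3 * r + d + 1 ≤ 3 * n := by omega
  obtain ⟨m, hm⟩ : ∃ m, 2 * n = m + q := ⟨2 * n - q, by omega⟩
  have hm' : 2 * n - q = m := by omega
  rw [hm'] at h1
  have h3 : 3 * (m * d) ≤ (d + m) * (3 * r) := by nlinarith
  have h4 : (d + m) * (3 * r + d + 1) ≤ (d + m) * (3 * n) := Nat.mul_le_mul_left _ h2
  have h5 : (3 * ((m : ℤ) * d)) ≤ (d + m) * (3 * n - d - 1) := by
    have h3' : (3 * ((m : ℤ) * d)) ≤ (d + m) * (3 * r) := by exact_mod_cast h3
    have h4' : ((d : ℤ) + m) * (3 * r + d + 1) ≤ (d + m) * (3 * n) := by exact_mod_cast h4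
    linarith
  have hm2 : (m : ℤ) = 2 * n - q := by omega
  rw [hm2] at h5
  have hnd' : (n : ℤ) ≤ d := by exact_mod_cast hnd
  have hqn' : (q : ℤ) ≤ n := by exact_mod_cast hqn
  have hn1 : (1 : ℤ) ≤ n := by omega
  obtain rfl | rfl | rfl : q = 0 ∨ q = 1 ∨ q = 2 := by omega
  · exfalso
    push_cast at h5
    nlinarith
  · exfalso
    push_cast at h5
    nlinarith [mul_nonneg (sub_nonneg.mpr hn1) (sub_nonneg.mpr hnd')]
  · have hn2 : (2 : ℤ) ≤ n := by exact_mod_cast hqn
    have hd2 : d = 2 := by
      by_contra hd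
      have hd3 : (3 : ℤ) ≤ d := by omega
      push_cast at h5
      nlinarith [mul_nonneg (sub_nonneg.mpr hn2) (sub_nonneg.mpr hnd')]
    omega

/-- **M_TRD** -/
theorem m_trd (h : M_RADOD) : M_TRD := by
  intro k V I _ _ _ _ _ _ c l d hc hc' hI h1
  classical
  have h1' : ∀ T : Finset I, T.card * d ≤ (d + T.card) * rk k l T := h1
  obtain ⟨P₀, hP₀, hP₀'⟩ := exists_P0 (k := k) (l := l) hc hI h1'
  refine ⟨P₀, hP₀, ?_⟩
  intro P hPc hP hne hne'
  -- representatives
  let e := Fintype.equivFin I
  have ene : ∀ i, e i ≠ e (c i) := fun i hi => hc' i (e.injective hi).symm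
  let J : Type := {i : I // e i < e (c i)}
  obtain ⟨rep, hrep1, hrep2, hrep3⟩ : ∃ rep : I → J, (∀ j : J, rep j.1 = j) ∧
      (∀ i, rep (c i) = rep i) ∧ ∀ i, (rep i).1 = i ∨ (rep i).1 = c i := by
    have key : ∀ i, ¬ e i < e (c i) → e (c i) < e (c (c i)) := by
      intro i hi
      rw [hc]
      exact lt_of_le_of_ne (not_lt.mp hi) (ene i).symm
    let rep : I → J := fun i => if hi : e i < e (c i) then ⟨i, hi⟩ else ⟨c i, key i hi⟩
    have hpos : ∀ i (hi : e i < e (c i)), rep i = ⟨i, hi⟩ := fun i hi => dif_pos hi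
    have hneg : ∀ i (hi : ¬ e i < e (c i)), rep i = ⟨c i, key i hi⟩ := fun i hi => dif_neg hi
    refine ⟨rep, ?_, ?_, ?_⟩
    · intro j
      exact hpos j.1 j.2
    · intro i
      by_cases hi : e i < e (c i)
      · have hi2 : ¬ e (c i) < e (c (c i)) := by
          rw [hc]
          exact not_lt.mpr hi.le
        rw [hpos i hi, hneg (c i) hi2]
        exact Subtype.ext (hc i)
      · rw [hneg i hi, hpos (c i) (key i hi)]
    · intro i
      by_cases hi : e i < e (c i)
      · rw [hpos i hi]
        exact Or.inl rfl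
      · rw [hneg i hi]
        exact Or.inr rfl
  have hrepE : ∀ (j : J) (i : I), i ∈ ({j.1, c j.1} : Finset I) ↔ rep i = j := by
    intro j i
    rw [Finset.mem_insert, Finset.mem_singleton]
    constructor
    · rintro (rfl | rfl)
      · exact hrep1 j
      · rw [hrep2, hrep1]
    · rintro rfl
      rcases hrep3 i with h3 | h3
      · left
        exact h3.symm
      · right
        rw [h3, hc]
  let U : Finset I := Finset.univ.filter fun i => c i ∉ P
  let A : J → Finset I := fun j => ({j.1, c j.1} : Finset I) ∩ U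
  have hU : ∀ i, i ∈ U ↔ c i ∉ P := fun i => by simp [U]
  have hAne : ∀ j, (A j).Nonempty := by
    intro j
    by_cases hj : c j.1 ∈ P
    · refine ⟨c j.1, Finset.mem_inter.mpr ⟨?_, ?_⟩⟩
      · rw [Finset.mem_insert, Finset.mem_singleton]
        exact Or.inr rfl
      · rw [hU, hc]
        intro hj'
        exact hP _ hj' hj
    · exact ⟨j.1, Finset.mem_inter.mpr ⟨Finset.mem_insert_self _ _, (hU _).mpr hj⟩⟩
  -- the sets of pairs
  have hmem : ∀ (Q : Finset J) (i : I),
      i ∈ (Q.biUnion fun j => ({j.1, c j.1} : Finset I)) ↔ rep i ∈ Q := by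
    intro Q i
    rw [Finset.mem_biUnion]
    constructor
    · rintro ⟨j, hj, hi⟩
      rw [hrepE] at hi
      rwa [hi]
    · intro hi
      exact ⟨rep i, hi, (hrepE _ _).mpr rfl⟩
  have hcard : ∀ Q : Finset J,
      (Q.biUnion fun j => ({j.1, c j.1} : Finset I)).card = 2 * Q.card := by
    intro Q
    rw [Finset.card_biUnion]
    · rw [Finset.sum_congr rfl (fun j _ => Finset.card_pair (hc' j.1).symm), Finset.sum_const,
        smul_eq_mul, mul_comm]
    · intro j _ j' _ hjj
      rw [Function.onFun, Finset.disjoint_left]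
      intro i hi hi'
      rw [hrepE] at hi hi'
      exact hjj (hi.symm.trans hi')
  have hJ : Fintype.card J = d := by
    have t1 := hcard Finset.univ
    have t2 : ((Finset.univ : Finset J).biUnion fun j => ({j.1, c j.1} : Finset I)) =
        Finset.univ := by
      ext i
      rw [hmem]
      simp
    rw [t2, Finset.card_univ, Finset.card_univ] at t1
    have t3 := hI.symm.trans t1
    omega
  -- the condition of Rado
  have hcond : ∀ Q : Finset J, Q.card ≤ rk k l (Q.biUnion A) + d / 3 := by
    intro Q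
    set CQ : Finset I := Q.biUnion fun j => ({j.1, c j.1} : Finset I) with hCQ
    have hT : Q.biUnion A = CQ ∩ U := by
      ext i
      simp only [A, hCQ, Finset.mem_biUnion, Finset.mem_inter]
      constructor
      · rintro ⟨j, hj, hi, hi'⟩
        exact ⟨⟨j, hj, hi⟩, hi'⟩
      · rintro ⟨⟨j, hj, hi⟩, hi'⟩
        exact ⟨j, hj, hi, hi'⟩
    rw [hT]
    set T := CQ ∩ U with hTdef
    have hd1 : (CQ \ U).card + T.card = 2 * Q.card := by
      rw [← hcard Q, hTdef]
      exact Finset.card_sdiff_add_card_inter _ _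
    have hPf : P.Finite := Set.toFinite P
    have hsub : CQ \ U ⊆ hPf.toFinset.image c := by
      intro i hi
      rw [Finset.mem_sdiff, hU, not_not] at hi
      exact Finset.mem_image.mpr ⟨c i, hPf.mem_toFinset.mpr hi.2, hc i⟩
    have hPcard : (hPf.toFinset.image c).card ≤ 2 := by
      refine Finset.card_image_le.trans ?_
      rwa [← Set.ncard_eq_toFinset_card P hPf]
    have hq : (CQ \ U).card ≤ 2 := (Finset.card_le_card hsub).trans hPcard
    have hqT : (CQ \ U).card ≤ T.card := by
      have t1 : (CQ \ U).image c ⊆ T := by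
        intro i hi
        obtain ⟨j, hj, rfl⟩ := Finset.mem_image.mp hi
        rw [Finset.mem_sdiff, hU, not_not] at hj
        rw [hTdef, Finset.mem_inter, hU, hc]
        refine ⟨?_, fun hj' => hP _ hj' hj.2⟩
        rw [hCQ, hmem, hrep2, ← hmem]
        exact hj.1
      have t2 := Finset.card_le_card t1
      rwa [Finset.card_image_of_injective _
        (fun a b hab => by rw [← hc a, hab, hc] : Function.Injective c)] at t2
    have hnd : Q.card ≤ d := by
      have t1 := Finset.card_le_univ CQ
      rw [hcard Q, hI] at t1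
      omega
    have r1 := h1' T
    have hTc : T.card = 2 * Q.card - (CQ \ U).card := by omega
    rw [hTc] at r1
    by_contra hcon
    obtain ⟨hd2, hq2, hn2, hr⟩ := num d Q.card (CQ \ U).card (rk k l T) hq (by omega) hnd r1 hcon
    -- the exceptional case
    have heq : CQ \ U = hPf.toFinset.image c :=
      Finset.eq_of_subset_of_card_le hsub (by omega)
    have hPT : ∀ i ∈ P, i ∈ T := by
      intro i hi
      have t1 : c i ∈ CQ \ U := by
        rw [heq]
        exact Finset.mem_image.mpr ⟨i, hPf.mem_toFinset.mpr hi, rfl⟩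
      rw [hTdef, Finset.mem_inter]
      refine ⟨?_, (hU i).mpr (hP i hi)⟩
      rw [hCQ, hmem, ← hrep2, ← hmem]
      exact (Finset.mem_sdiff.mp t1).1
    have hTP : hPf.toFinset = T := by
      apply Finset.eq_of_subset_of_card_le
      · intro i hi
        exact hPT i (hPf.mem_toFinset.mp hi)
      · have t1 : (hPf.toFinset.image c).card ≤ hPf.toFinset.card := Finset.card_image_le
        rw [← heq] at t1
        omega
    have hTP' : (T : Set I) = P := by
      rw [← hTP]
      exact hPf.coe_toFinset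
    have t3 := hP₀' hd2 T (by omega) (fun i hi hi' => by
      have u1 : i ∈ P := by
        rw [← hTP']
        exact hi
      have u2 : c i ∈ P := by
        rw [← hTP']
        exact hi'
      exact hP i u1 u2) hr
    rw [hTP'] at t3
    rcases t3 with t3 | t3
    · exact hne t3
    · exact hne' t3
  obtain ⟨f, hf1, hf2⟩ := h k V I J l A (d / 3) hAne hcond
  have hf3 : ∀ j, rep (f j) = j := fun j => (hrepE _ _).mp (Finset.mem_inter.mp (hf1 j)).1
  have hf4 : ∀ j, c (f j) ∉ P := fun j => (hU _).mp (Finset.mem_inter.mp (hf1 j)).2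
  have hf5 : ∀ i, f (rep i) = i ∨ f (rep i) = c i := by
    intro i
    have t1 := (Finset.mem_inter.mp (hf1 (rep i))).1
    rw [Finset.mem_insert, Finset.mem_singleton] at t1
    rcases hrep3 i with t2 | t2
    · rw [t2] at t1
      exact t1
    · rw [t2, hc] at t1
      exact t1.symm
  refine ⟨Set.range f, ?_, ?_, ?_⟩
  · intro i hi
    rcases hf5 i with t1 | t1
    · exact ⟨_, t1⟩
    · exfalso
      apply hf4 (rep i)
      rw [t1, hc]
      exact hi
  · intro i
    constructor
    · rintro ⟨j, rfl⟩ ⟨j', hj'⟩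
      have t1 : j' = j := by rw [← hf3 j', hj', hrep2, hf3]
      rw [t1] at hj'
      exact hc' _ hj'.symm
    · intro hi
      rcases hf5 i with t1 | t1
      · exact ⟨_, t1⟩
      · exact absurd ⟨_, t1⟩ hi
  · rw [hJ] at hf2
    have t1 : l '' Set.range f = Set.range fun j => l (f j) := by
      rw [← Set.range_comp]
      rfl
    rw [t1]
    omega

end Pool.Agent.Helper12.SD
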