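import Pool.Agent.Helper16.SD.GoalsN

/-!
# Project SD (MP_fc6b1e_nt), packet N_MVD (helper12)

Adapted from `Pool/Agent/Helper60/SD/A_MVD.lean`.
-/

set_option autoImplicit false

namespace Pool.Agent.Helper12.SD.N_MVD

open NumberField Module
open Pool.Agent.Helper16.SD
open Pool.Agent.Helper38.FD (Chr)

section coc

variable {I Γ A : Type} [Group Γ] [MulAction Γ I] [CommGroup A]

/-- a cocycle is trivial at `1` -/
theorem coc_one (m : Γ → I → A) (hm : ∀ γ δ i, m (γ * δ) i = m γ (δ • i) * m δ i) (i : I) :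
    m 1 i = 1 := by
  have h := hm 1 1 i
  rw [one_mul, one_smul] at h
  exact left_eq_mul.mp h

/-- conjugation of an element which fixes `i` -/
theorem coc_fix (m : Γ → I → A) (hm : ∀ γ δ i, m (γ * δ) i = m γ (δ • i) * m δ i) (γ x : Γ)
    (i : I) (hx : x • i = i) : m (γ * x * γ⁻¹) (γ • i) = m x i := by
  rw [mul_assoc, hm, hm x, mul_smul, inv_smul_smul, hx]
  have h := hm γ γ⁻¹ (γ • i)
  rw [mul_inv_cancel, coc_one m hm, inv_smul_smul] at h
  calc m γ i * (m x i * m γ⁻¹ (γ • i)) = m x i * (m γ i * m γ⁻¹ (γ • i)) := by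
        rw [mul_left_comm]
    _ = m x i := by rw [← h, mul_one]

end coc

theorem smul_def' {K : Type} [Field K] (γ : AlgebraicClosure K ≃+* AlgebraicClosure K)
    (σ : K →+* AlgebraicClosure K) (x : K) : (γ • σ) x = γ (σ x) := rfl

theorem t : A_TRV → A_CM → Pool.Agent.Helper16.SD.N_MVD := by
  intro hT hC F₀ K _ _ _ _ _ _ _ hd p _ ιinf c hcc hconj F _ _ χ hnc E _ j χ' hχ s h hs hsh hcoc
  obtain ⟨J, hJJ, hJ⟩ := hC F₀ K hd
  have hJc := hJ ιinf c hconj
  have hcomm : ∀ (γ : AlgebraicClosure K ≃+* AlgebraicClosure K)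
      (i : K →+* AlgebraicClosure K), c • γ • i = γ • c • i := by
    intro γ i
    ext x
    have h1 : (c • (γ • i)) x = (γ • i) (J x) := (hJc (γ • i)).1 x
    have h2 : (c • i) x = i (J x) := (hJc i).1 x
    rw [h1, smul_def', smul_def', h2]
  refine ⟨hcomm, fun i => ?_⟩
  obtain ⟨g, g', hg2, hg3⟩ := hnc
  have hcinv : c⁻¹ = c := inv_eq_of_mul_eq_one_left hcc
  let m : (AlgebraicClosure K ≃+* AlgebraicClosure K) → (K →+* AlgebraicClosure K) → Eˣ :=
    fun γ σ => χ' (h γ σ)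
  have hm : ∀ γ δ σ, m (γ * δ) σ = m γ (δ • σ) * m δ σ := fun γ δ σ => by
    change χ' _ = χ' _ * χ' _
    rw [hcoc, map_mul]
  let σ0 : K →+* AlgebraicClosure K := algebraMap K (AlgebraicClosure K)
  have hfix : ∀ a : AlgebraicClosure K ≃ₐ[K] AlgebraicClosure K, a.toRingEquiv • σ0 = σ0 := by
    intro a
    ext x
    exact a.commutes x
  -- the value at the base embedding
  have hbase : ∀ a : AlgebraicClosure K ≃ₐ[K] AlgebraicClosure K,
      m a.toRingEquiv σ0 = χ' (AlgEquiv.restrictNormalHom F a) := by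
    intro a
    let φ : F →ₐ[K] AlgebraicClosure K :=
      { toRingHom := s σ0
        commutes' := fun r => by
          have h1 := congrArg (fun f : K →+* AlgebraicClosure K => f r) (hs σ0)
          exact h1 }
    let h0 : F ≃ₐ[K] F := (Normal.algHomEquivAut K (AlgebraicClosure K) F) φ
    have hh0 : ∀ x : F, s σ0 x = ((h0 x : F) : AlgebraicClosure K) := by
      intro x
      have h1 : (Normal.algHomEquivAut K (AlgebraicClosure K) F).symm h0 = φ :=
        Equiv.symm_apply_apply _ _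
      have h2 := congrArg (fun f : F →ₐ[K] AlgebraicClosure K => f x) h1
      exact h2.symm
    have h3 : AlgEquiv.restrictNormalHom F a * h0 = h0 * h a.toRingEquiv σ0 := by
      ext x
      have h4 := hsh a.toRingEquiv σ0 x
      rw [hfix a, hh0, hh0] at h4
      have h5 := AlgEquiv.restrictNormalHom_apply F a (h0 x)
      rw [AlgEquiv.mul_apply, AlgEquiv.mul_apply, h5]
      exact h4
    have h6 := congrArg χ' h3
    rw [map_mul, map_mul, mul_comm] at h6
    exact (mul_left_cancel h6).symm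
  -- `g' = c g c⁻¹`
  have hg' : g'.toRingEquiv = c * g.toRingEquiv * c⁻¹ := by
    rw [hcinv]
    ext y
    have h1 := hg2 (c y) y (by rw [hconj, Complex.conj_conj])
    rw [← hconj] at h1
    exact ιinf.injective h1
  have hne : m g.toRingEquiv σ0 ≠ m g'.toRingEquiv σ0 := by
    rw [hbase, hbase]
    intro h1
    apply hg3
    apply Units.ext
    rw [← hχ, ← hχ, h1]
  obtain ⟨γ, rfl⟩ := hT K σ0 i
  refine ⟨γ * g.toRingEquiv * γ⁻¹, ?_, ?_⟩
  · rw [mul_smul, mul_smul, inv_smul_smul, hfix]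
  · change m _ _ ≠ m _ _
    have e1 : m (γ * g.toRingEquiv * γ⁻¹) (γ • σ0) = m g.toRingEquiv σ0 :=
      coc_fix m hm γ _ σ0 (hfix g)
    -- the element `w`
    let w : AlgebraicClosure K ≃+* AlgebraicClosure K := γ⁻¹ * c * γ * c⁻¹
    have hw : w • σ0 = σ0 := by
      have h1 : w • σ0 = γ⁻¹ • c • γ • c⁻¹ • σ0 := by
        rw [← mul_smul, ← mul_smul, ← mul_smul]
      rw [h1, ← hcomm γ⁻¹, inv_smul_smul, smul_inv_smul]
    have hw' : w⁻¹ • σ0 = σ0 := inv_smul_eq_iff.mpr hw.symm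
    have e2 : c * (γ * g.toRingEquiv * γ⁻¹) * c⁻¹ =
        γ * (w * g'.toRingEquiv * w⁻¹) * γ⁻¹ := by
      rw [hg']
      change c * (γ * g.toRingEquiv * γ⁻¹) * c⁻¹ =
        γ * ((γ⁻¹ * c * γ * c⁻¹) * (c * g.toRingEquiv * c⁻¹) * (γ⁻¹ * c * γ * c⁻¹)⁻¹) * γ⁻¹
      group
    have hfx : (w * g'.toRingEquiv * w⁻¹) • σ0 = σ0 := by
      rw [mul_smul, mul_smul, hw', hfix, hw]
    have e3 : m (w * g'.toRingEquiv * w⁻¹) σ0 = m g'.toRingEquiv σ0 := by
      have h1 := coc_fix m hm w g'.toRingEquiv σ0 (hfix g')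
      rw [hw] at h1
      exact h1
    rw [e1, e2, coc_fix m hm γ _ σ0 hfx, e3]
    exact hne

end Pool.Agent.Helper12.SD.N_MVD
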